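import Mathlib

set_option autoImplicit false

namespace Pool.Agent.Results.MP_d408b2_an.NoLimit

open Filter Topology

/-- The invariant. -/
noncomputable def J (A x y z : ℝ) : ℝ :=
  max (max A (max z y)) x * max 1 x⁻¹ * max 1 y⁻¹ * max 1 z⁻¹

lemma aux (x w : ℝ) (hx : 0 < x) : max (x * w) x * max 1 x⁻¹ = max w 1 * max x 1 := by
  have h1 : max (x * w) x = x * max w 1 := by rw [mul_max_of_nonneg _ _ hx.le, mul_one]
  have h2 : max x 1 = x * max 1 x⁻¹ := by
    rw [mul_max_of_nonneg _ _ hx.le, mul_one, mul_inv_cancel₀ hx.ne']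
  rw [h1, h2]; ring

lemma J_step (A x y z w : ℝ) (hx : 0 < x) (hw : 0 < w) (h : x * w = max A (max z y)) :
    J A y z w = J A x y z := by
  have h1 : max (max A (max w z)) y = max (w * x) w := by
    rw [mul_comm w x, h]
    simp only [max_comm, max_left_comm]
  have h2 := aux x w hx
  have h3 := aux w x hw
  unfold J
  rw [h1, ← h]
  calc _ = (max (w * x) w * max 1 w⁻¹) * max 1 y⁻¹ * max 1 z⁻¹ := by ring
    _ = _ := by rw [h3, h2]; ring

lemma J_one (A x y z : ℝ) (hx : 0 < x) (hy : 0 < y) (h : J A x y z = 1) : y = 1 := by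
  unfold J at h
  have a1 : x ≤ max (max A (max z y)) x := le_max_right _ _
  have a2 : y ≤ max (max A (max z y)) x :=
    ((le_max_right _ _).trans (le_max_right _ _)).trans (le_max_left _ _)
  apply le_antisymm
  · rw [← h]
    calc y = y * 1 * 1 * 1 := by ring
      _ ≤ _ := by gcongr <;> exact le_max_left _ _
  · have : y⁻¹ ≤ 1 := by
      rw [← h]
      calc y⁻¹ = x * x⁻¹ * y⁻¹ * 1 := by field_simp
        _ ≤ _ := by
          gcongr
          · exact le_max_right _ _
          · exact le_max_right _ _
          · exact le_max_left _ _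
    exact (inv_le_one₀ hy).1 this

theorem result (A : ℝ) (hA : 0 < A) (x : ℕ → ℝ) (hpos : ∀ n, 0 < x n)
    (hrec : ∀ n, x (n + 3) = max A (max (x (n + 2)) (x (n + 1))) / x n)
    (hne : ¬ ∃ c : ℝ, ∀ n, x n = c) : ¬ ∃ L : ℝ, Tendsto x atTop (𝓝 L) := by
  rintro ⟨L, hL⟩
  apply hne
  have hrec' : ∀ n, x n * x (n + 3) = max A (max (x (n + 2)) (x (n + 1))) := by
    intro n; rw [hrec]; field_simp [(hpos n).ne']
  have hk : ∀ k, Tendsto (fun n => x (n + k)) atTop (𝓝 L) := fun k =>
    (tendsto_add_atTop_iff_nat k).2 hL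
  have hL0 : 0 ≤ L := ge_of_tendsto' hL (fun n => (hpos n).le)
  have hLL : L * L = max A L := by
    have h1 := hL.mul (hk 3)
    have h2 := (tendsto_const_nhds (x := A)).max ((hk 2).max (hk 1))
    simp only [hrec'] at h1
    simpa using tendsto_nhds_unique h1 h2
  have hLpos : 0 < L := by
    rcases hL0.eq_or_lt with h | h
    · have := le_max_left A L
      rw [← hLL, ← h] at this; linarith
    · exact h
  have back : ∀ N, (∀ n, N ≤ n → x n = L) → ∀ n, x n = L := by
    intro N
    induction N with
    | zero => intro h n; exact h n (Nat.zero_le _)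
    | succ N ih =>
      intro h
      apply ih
      intro n hn
      rcases hn.eq_or_lt with h1 | h1
      · have := hrec' n
        rw [h (n + 3) (by omega), h (n + 2) (by omega), h (n + 1) (by omega), max_self, ← hLL]
          at this
        exact mul_right_cancel₀ hLpos.ne' this
      · exact h n h1
  refine ⟨L, ?_⟩
  rcases le_or_gt A 1 with h1 | h1
  · have hL1 : L = 1 := by
      rcases le_total A L with h | h
      · rw [max_eq_right h] at hLL
        exact mul_left_cancel₀ hLpos.ne' (by rw [hLL, mul_one])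
      · rw [max_eq_left h] at hLL
        nlinarith
    subst hL1
    have hJ : ∀ n, J A (x n) (x (n + 1)) (x (n + 2)) = J A (x 0) (x 1) (x 2) := by
      intro n
      induction n with
      | zero => rfl
      | succ n ih => rw [← ih]; exact J_step _ _ _ _ _ (hpos n) (hpos _) (hrec' n)
    have hlim : Tendsto (fun n => J A (x n) (x (n + 1)) (x (n + 2))) atTop (𝓝 (J A 1 1 1)) := by
      unfold J
      exact ((((tendsto_const_nhds.max ((hk 2).max (hk 1))).max hL).mul
        (tendsto_const_nhds.max (hL.inv₀ one_ne_zero))).mul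
        (tendsto_const_nhds.max ((hk 1).inv₀ one_ne_zero))).mul
        (tendsto_const_nhds.max ((hk 2).inv₀ one_ne_zero))
    have hJ1 : J A 1 1 1 = 1 := by simp [J, h1]
    simp only [hJ, hJ1] at hlim
    have hJ0 := tendsto_nhds_unique tendsto_const_nhds hlim
    apply back 1
    intro n hn
    obtain ⟨m, rfl⟩ : ∃ m, n = m + 1 := ⟨n - 1, by omega⟩
    exact J_one A _ _ _ (hpos m) (hpos _) ((hJ m).trans hJ0)
  · have hLA : L < A := by
      by_contra h
      push Not at h
      rw [max_eq_right h] at hLL
      nlinarith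
    obtain ⟨N, hN⟩ := eventually_atTop.1 (hL.eventually (gt_mem_nhds hLA))
    have h3 : ∀ n, N ≤ n → x n * x (n + 3) = A := by
      intro n hn
      rw [hrec', max_eq_left]
      exact max_le (hN _ (by omega)).le (hN _ (by omega)).le
    have h6 : ∀ n, N ≤ n → x (n + 6) = x n := by
      intro n hn
      have a := h3 n hn
      have b := h3 (n + 3) (by omega)
      apply mul_left_cancel₀ (hpos (n + 3)).ne'
      rw [b, ← a, mul_comm]
    apply back N
    intro n hn
    have h7 : ∀ k, x (n + 6 * k) = x n := by
      intro k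
      induction k with
      | zero => rfl
      | succ k ih => rw [← ih, ← h6 (n + 6 * k) (by omega)]; congr 1
    have h8 : Tendsto (fun k => x (n + 6 * k)) atTop (𝓝 L) :=
      hL.comp (tendsto_atTop_mono (f := id) (fun k => by simp only [id]; omega) tendsto_id)
    simp only [h7] at h8
    exact tendsto_nhds_unique tendsto_const_nhds h8

end Pool.Agent.Results.MP_d408b2_an.NoLimit
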